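import Pool.Agent.Run7.h160.Final

/-!
Minimal braid words on four strands (Artin generators) form a regular language, so that
minimality of braid words on four strands is decided in polynomial time.
-/

namespace Pool.Agent.Results.MP_64e010_lc.FourStrands

open Run7.h160.Braid Pool.Agent.H38.NP

/-- The set of minimal words of the braid group on four strands is the language of a deterministic
finite automaton with 1762 states; the decision problem for minimality on four strands is in P; and
if non-minimality on four strands is NP-complete, then P = NP. -/
theorem result :
    (∃ M : DFA (Fin (4 - 1) × Bool) (Fin 1762), M.accepts = {w | IsMinimal 4 w}) ∧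
    InP (MIN 4) ∧
    (NPComplete (NONMIN 4) → ∀ L : Set (List Bool), InNP L → InP L) :=
  ⟨⟨Run7.h160.dfa, Run7.h160.dfa_accepts⟩, Run7.h160.min_inP,
    fun h L hL => Run7.h160.inP_reduces (h.2 L hL) Run7.h160.nonmin_inP⟩

end Pool.Agent.Results.MP_64e010_lc.FourStrands
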